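import Pool.Agent.Helper74.RN.St

set_option autoImplicit false

/-!
Module RNF: runs of the first pass.
-/

namespace Pool.Agent.Helper95.RN

open Pool.Agent.Helper74 Pool.Agent.Helper74.RN

private theorem a1_eq_a {G : Type} {z : Option G} {x : G} (h : a1 z = Ce.a x) : z = some x := by
  cases z with
  | none => simp [a1] at h
  | some y =>
    simp only [a1, Ce.a.injEq] at h
    rw [h]

theorem hRNF : StRNF := by
  intro G R N L i j h
  induction h with
  | nil i =>
    intro l hl
    cases l with
    | nil => exact ⟨0, Fo.nil, rfl⟩
    | cons a l => simp at hl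
  | one A d L' i j k hsh hi hj hd _ ih =>
    intro l hl
    cases l with
    | nil => simp at hl
    | cons z l' =>
      rw [List.map_cons] at hl
      injection hl with h1 h2
      obtain ⟨k', hk1, hk2⟩ := ih l' h2
      cases z with
      | none =>
        have hA : A = Ce.c := h1
        subst hA
        cases hsh
        refine ⟨k', by simpa using hk1, ?_⟩
        omega
      | some x =>
        have hA : A = Ce.a x := h1
        subst hA
        cases hsh
        refine ⟨k' + 1, ?_, ?_⟩
        · exact Fo.skip x _ k' hk1
        · omega
  | two x y u v i j k hR hi hj _ _ ih1 ih2 =>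
    intro l hl
    cases l with
    | nil => simp at hl
    | cons z l1 =>
      rw [List.map_cons] at hl
      injection hl with h1 h2
      obtain rfl := a1_eq_a h1.symm
      obtain ⟨u', l2, rfl, hu, hl2⟩ := List.map_eq_append_iff.1 h2.symm
      obtain ⟨z', v', rfl, hz', hv⟩ := List.map_eq_cons_iff.1 hl2
      obtain rfl := a1_eq_a hz'
      obtain ⟨k1, hk1, hj1⟩ := ih1 u' hu.symm
      obtain ⟨k2, hk2, hj2⟩ := ih2 v' hv.symm
      refine ⟨k1 + k2, ?_, by omega⟩
      have := Fo.wrap x y _ _ k1 k2 hR hk1 hk2
      simpa [List.filterMap_append] using this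

end Pool.Agent.Helper95.RN
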